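import Pool.Agent.NPG.Stmts
import Pool.Agent.LSG.StmtsD

/-! # ONE (squad NPG, MP_005a41_gt): one set with one locally constant centre -/

set_option autoImplicit false

open Set Topology
open scoped BigOperators Pointwise

namespace Pool.Agent.NPG.H48

open Pool.Agent.LSG Pool.Agent.NPG

/-- an open subset of a metrizable space is a cozero set -/
theorem exEps (H : Type) [TopologicalSpace H] [TopologicalSpace.MetrizableSpace H] (V : Set H)
    (hV : IsOpen V) : ∃ ε : H → ℝ, Continuous ε ∧ (∀ x, 0 ≤ ε x) ∧ ∀ x, ε x ≠ 0 ↔ x ∈ V := by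
  let _ := TopologicalSpace.metrizableSpaceMetric H
  by_cases hne : (Vᶜ).Nonempty
  · refine ⟨fun x => Metric.infDist x Vᶜ, Metric.continuous_infDist_pt _,
      fun x => Metric.infDist_nonneg, fun x => ?_⟩
    have h := (hV.isClosed_compl).mem_iff_infDist_zero hne (x := x)
    constructor
    · intro hx
      by_contra hxV
      exact hx (h.1 hxV)
    · intro hx h0
      exact (h.2 h0) hx
  · refine ⟨fun _ => 1, continuous_const, fun _ => zero_le_one, fun x => ⟨fun _ => ?_, fun _ => one_ne_zero⟩⟩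
    by_contra hx
    exact hne ⟨x, hx⟩

/-- right translation by an element `z` which keeps `D` -/
def tr {H : Type} [Group H] [TopologicalSpace H] [IsTopologicalGroup H] (D : Set H) (z : H)
    (hz : ∀ x, x * z ∈ D ↔ x ∈ D) : D ≃ₜ D where
  toFun x := ⟨x.1 * z, (hz x.1).2 x.2⟩
  invFun x := ⟨x.1 * z⁻¹, (hz (x.1 * z⁻¹)).1 (by rw [inv_mul_cancel_right]; exact x.2)⟩
  left_inv x := Subtype.ext (mul_inv_cancel_right x.1 z)
  right_inv x := Subtype.ext (inv_mul_cancel_right x.1 z)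
  continuous_toFun := (continuous_subtype_val.mul continuous_const).subtype_mk _
  continuous_invFun := (continuous_subtype_val.mul continuous_const).subtype_mk _

theorem one (SLR : SlrStmt) (CTK : CtkStmt) : OneStmt := by
  intro H _ _ _ _ V V₀ d l L D Z ξ hV h1 hVi hV0 h10 hV0i hVV hd hdL hlL hdn hinv hrep hloc
  obtain ⟨ε, hεc, hε0, hεV⟩ := exEps H V hV
  -- three factors of `V`
  have key : ∀ s r (a b c : H), a ∈ V → b ∈ V → c ∈ V → d s * (d r)⁻¹ = a * b * c → s = r := by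
    intro s r a b c ha hb hc h
    by_contra hsr
    refine hd s r hsr ?_
    rw [h, ← mul_one (a * b * c)]
    exact Set.mul_mem_mul (Set.mul_mem_mul (Set.mul_mem_mul ha hb) hc) h1
  -- the functions `φ j`
  have hφc : ∀ j, Continuous fun h : D => ε ((ξ h.1)⁻¹ * h.1 * (l j)⁻¹) := by
    intro j
    rw [continuous_iff_continuousAt]
    intro x
    have h1 : ∀ᶠ y : D in nhds x, ξ y.1 = ξ x.1 := by
      have h2 : ∀ᶠ y : D in nhds x, y.1 ∈ D → ξ y.1 = ξ x.1 :=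
        (continuous_subtype_val.tendsto x).eventually (hloc x.1 x.2)
      filter_upwards [h2] with y hy
      exact hy y.2
    have h3 : ContinuousAt (fun h : D => ε ((ξ x.1)⁻¹ * h.1 * (l j)⁻¹)) x := by
      have : Continuous (fun h : D => ε ((ξ x.1)⁻¹ * h.1 * (l j)⁻¹)) :=
        hεc.comp ((continuous_const.mul continuous_subtype_val).mul continuous_const)
      exact this.continuousAt
    refine h3.congr ?_
    filter_upwards [h1] with y hy
    rw [hy]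
  let φ : ℕ → C(D, ℝ) := fun j => ⟨fun h : D => ε ((ξ h.1)⁻¹ * h.1 * (l j)⁻¹), hφc j⟩
  have hφ : ∀ j (h : D), φ j h = ε ((ξ h.1)⁻¹ * h.1 * (l j)⁻¹) := fun j h => rfl
  obtain ⟨χ, hχφ, hχl, hχs⟩ := CTK D φ (fun m h => hε0 _) (by
    intro h
    obtain ⟨w, hw, z, hz, hx⟩ := hrep h.1 h.2
    obtain ⟨j, hj⟩ := hdn z hz V₀ (hV0.mem_nhds h10)
    refine ⟨j, ?_⟩
    rw [hφ, hεV]
    have : (ξ h.1)⁻¹ * h.1 * (l j)⁻¹ = w * (z * (l j)⁻¹) := by
      calc (ξ h.1)⁻¹ * h.1 * (l j)⁻¹ = (ξ h.1)⁻¹ * (ξ h.1 * w * z) * (l j)⁻¹ := by rw [← hx]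
        _ = w * (z * (l j)⁻¹) := by group
    rw [this]
    exact hVV w hw _ hj)
  have hχV : ∀ m (h : D), χ m h ≠ 0 → (ξ h.1)⁻¹ * h.1 * (l m)⁻¹ ∈ V := by
    intro m h hm
    exact (hεV _).1 (hχφ m h hm)
  -- the translations
  have hzL : ∀ n m, (l m)⁻¹ * d (Nat.pair n m) ∈ L := fun n m =>
    L.mul_mem (L.inv_mem (hlL m)) (hdL _)
  let τ : ℕ → ℕ → D ≃ₜ D := fun n m =>
    tr D ((l m)⁻¹ * d (Nat.pair n m)) (fun x => (hinv x _ (hzL n m)).1)
  have hτ : ∀ n m (h : D), (τ n m h).1 = h.1 * ((l m)⁻¹ * d (Nat.pair n m)) := fun _ _ _ => rfl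
  have hτξ : ∀ n m (h : D), ξ (τ n m h).1 = ξ h.1 := by
    intro n m h
    rw [hτ]
    exact (hinv h.1 _ (hzL n m)).2.2
  -- the form of the landing points
  have land : ∀ n m (h : D), χ m h ≠ 0 → ∃ v ∈ V,
      (τ n m h).1 = ξ (τ n m h).1 * v * d (Nat.pair n m) := by
    intro n m h hm
    refine ⟨_, hχV m h hm, ?_⟩
    rw [hτξ, hτ]
    group
  refine SLR D ℕ {x : D | x.1 ∈ Z} (fun _ m => χ m) τ ?_ (fun _ => hχl) ?_ (fun _ h => hχs h) ?_
  · intro n b x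
    change (τ n b x).1 ∈ Z ↔ x.1 ∈ Z
    rw [hτ]
    exact (hinv x.1 _ (hzL n b)).2.1
  · intro y₀
    have hW1 : ∀ᶠ y : D in nhds y₀, ξ y.1 = ξ y₀.1 := by
      have h2 : ∀ᶠ y : D in nhds y₀, y.1 ∈ D → ξ y.1 = ξ y₀.1 :=
        (continuous_subtype_val.tendsto y₀).eventually (hloc y₀.1 y₀.2)
      filter_upwards [h2] with y hy
      exact hy y.2
    have hW2 : ∀ᶠ y : D in nhds y₀, (ξ y₀.1)⁻¹ * y.1 * (y₀.1)⁻¹ * ξ y₀.1 ∈ V₀ := by
      have hc : Continuous fun y : D => (ξ y₀.1)⁻¹ * y.1 * (y₀.1)⁻¹ * ξ y₀.1 :=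
        ((continuous_const.mul continuous_subtype_val).mul continuous_const).mul continuous_const
      have h0 : (ξ y₀.1)⁻¹ * y₀.1 * (y₀.1)⁻¹ * ξ y₀.1 ∈ V₀ := by
        have : (ξ y₀.1)⁻¹ * y₀.1 * (y₀.1)⁻¹ * ξ y₀.1 = 1 := by group
        rw [this]
        exact h10
      exact hc.continuousAt.eventually (hV0.mem_nhds h0)
    refine ⟨{y : D | ξ y.1 = ξ y₀.1 ∧ (ξ y₀.1)⁻¹ * y.1 * (y₀.1)⁻¹ * ξ y₀.1 ∈ V₀}, hW1.and hW2, ?_⟩
    refine Set.Subsingleton.finite ?_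
    rintro ⟨n, m⟩ ⟨y, ⟨h, hm, rfl⟩, hy1, hy2⟩ ⟨n', m'⟩ ⟨y', ⟨h', hm', rfl⟩, hy1', hy2'⟩
    obtain ⟨v, hv, hvy⟩ := land n m h hm
    obtain ⟨v', hv', hvy'⟩ := land n' m' h' hm'
    dsimp only at hy1 hy2 hy1' hy2' hvy hvy'
    rw [hy1] at hvy
    rw [hy1'] at hvy'
    have ht := hVV _ hy2' _ (hV0i _ hy2)
    have hs : Nat.pair n' m' = Nat.pair n m := by
      refine key _ _ _ _ _ (hVi _ hv') ht hv ?_
      rw [hvy, hvy']
      group
    have := Nat.pair_eq_pair.1 hs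
    exact Prod.ext this.1.symm this.2.symm
  · intro n b n' b' h h' hb hb' hbb
    obtain ⟨v, hv, hvy⟩ := land n b h hb
    obtain ⟨v', hv', hvy'⟩ := land n' b' h' hb'
    rw [hbb] at hvy
    have hs : Nat.pair n' b' = Nat.pair n b := by
      refine key _ _ _ _ _ (hVi _ hv') hv h1 ?_
      have h3 : ξ (τ n' b' h').1 * v * d (Nat.pair n b)
          = ξ (τ n' b' h').1 * v' * d (Nat.pair n' b') := hvy.symm.trans hvy'
      rw [mul_assoc, mul_assoc, mul_left_cancel_iff] at h3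
      rw [mul_one, eq_inv_mul_iff_mul_eq, ← mul_assoc, mul_inv_eq_iff_eq_mul]
      exact h3.symm
    have := Nat.pair_eq_pair.1 hs
    exact ⟨this.1.symm, this.2.symm⟩

end Pool.Agent.NPG.H48
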